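import Pool.Agent.Q120.TY.Lim

set_option autoImplicit false

/-! # Powers of the primes -/

namespace Pool.Agent.Q120.TY

open MeasureTheory Filter Topology Set
open scoped ENNReal

/-- the least prime above `x` -/
noncomputable def nextPrime (x : ℝ) : ℕ := sInf {p : ℕ | p.Prime ∧ x < p}

/-- the `k`-th prime -/
noncomputable def pr (k : ℕ) : ℕ := Nat.nth Nat.Prime k

lemma nextPrime_spec (x : ℝ) : (nextPrime x).Prime ∧ x < nextPrime x := by
  have hne : {p : ℕ | p.Prime ∧ x < p}.Nonempty := by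
    obtain ⟨m, hm⟩ := exists_nat_gt x
    obtain ⟨p, hp1, hp2⟩ := Nat.exists_infinite_primes m
    exact ⟨p, hp2, hm.trans_le (by exact_mod_cast hp1)⟩
  exact Nat.sInf_mem hne

lemma nextPrime_eq {x : ℝ} {k : ℕ} (h1 : (pr k : ℝ) ≤ x) (h2 : x < pr (k + 1)) : nextPrime x = pr (k + 1) := by
  apply le_antisymm
  · exact Nat.sInf_le ⟨Nat.prime_nth_prime _, h2⟩
  · obtain ⟨h3, h4⟩ := nextPrime_spec x
    have h5 : pr k < nextPrime x := by exact_mod_cast h1.trans_lt h4
    have h6 : Nat.count Nat.Prime (nextPrime x) ≥ k + 1 := by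
      have h7 : Nat.count Nat.Prime (pr k + 1) ≤ Nat.count Nat.Prime (nextPrime x) := Nat.count_monotone _ h5
      have h8 : Nat.count Nat.Prime (pr k + 1) = k + 1 := by
        unfold pr
        rw [Nat.count_succ, if_pos (Nat.prime_nth_prime k), Nat.count_nth_of_infinite Nat.infinite_setOfPred_prime]
      omega
    have h9 : Nat.nth Nat.Prime (Nat.count Nat.Prime (nextPrime x)) = nextPrime x := Nat.nth_count h3
    have h10 : pr (k + 1) ≤ Nat.nth Nat.Prime (Nat.count Nat.Prime (nextPrime x)) :=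
      (Nat.nth_strictMono Nat.infinite_setOfPred_prime).monotone h6
    rwa [h9] at h10

lemma pr_strictMono : StrictMono pr := Nat.nth_strictMono Nat.infinite_setOfPred_prime

/-- the powers -/
noncomputable def sp (θ : ℝ) (k : ℕ) : ℝ := (pr k : ℝ) ^ θ

/-- the distance from `y` to the next `p^θ` -/
noncomputable def rp (θ : ℝ) (y : ℝ) : ℝ := (nextPrime (y ^ (1 / θ)) : ℝ) ^ θ - y

lemma sp_strictMono {θ : ℝ} (hθ : 0 < θ) : StrictMono (sp θ) := fun a b hab =>
  Real.rpow_lt_rpow (Nat.cast_nonneg _) (by exact_mod_cast pr_strictMono hab) hθ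

lemma sp_tendsto {θ : ℝ} (hθ : 0 < θ) : Tendsto (sp θ) atTop atTop :=
  (tendsto_rpow_atTop hθ).comp (tendsto_natCast_atTop_atTop.comp pr_strictMono.tendsto_atTop)

lemma rp_eq {θ : ℝ} (hθ : 0 < θ) (k : ℕ) (x : ℝ) (h1 : sp θ k ≤ x) (h2 : x < sp θ (k + 1)) :
    rp θ x = (sp θ (k + 1) - x) / (fun _ => (1 : ℝ)) x := by
  have h0 : 0 ≤ sp θ k := by unfold sp; positivity
  have hx : 0 ≤ x := h0.trans h1
  have hi : ∀ j : ℕ, (sp θ j) ^ (1 / θ) = (pr j : ℝ) := by
    intro j
    unfold sp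
    rw [← Real.rpow_mul (Nat.cast_nonneg _), mul_one_div_cancel hθ.ne', Real.rpow_one]
  have h3 : (pr k : ℝ) ≤ x ^ (1 / θ) := by
    rw [← hi k]
    exact Real.rpow_le_rpow h0 h1 (by positivity)
  have h4 : x ^ (1 / θ) < pr (k + 1) := by
    rw [← hi (k + 1)]
    exact Real.rpow_lt_rpow hx h2 (by positivity)
  unfold rp
  rw [nextPrime_eq h3 h4]
  simp [sp]

lemma rp_nonneg {θ : ℝ} (hθ : 0 < θ) : ∀ᶠ x in atTop, 0 ≤ rp θ x := by
  filter_upwards [eventually_ge_atTop 0] with x hx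
  have h1 := (nextPrime_spec (x ^ (1 / θ))).2
  have h2 : (x ^ (1 / θ)) ^ θ ≤ (nextPrime (x ^ (1 / θ)) : ℝ) ^ θ := Real.rpow_le_rpow (by positivity) h1.le hθ.le
  rw [← Real.rpow_mul hx, one_div_mul_cancel hθ.ne', Real.rpow_one] at h2
  unfold rp
  linarith

lemma scale_one : Scale (fun n : ℕ => (n : ℝ)) (fun _ => (1 : ℝ)) where
  pos := Eventually.of_forall fun _ => one_pos
  small := by
    simpa using tendsto_inv_atTop_zero (𝕜 := ℝ)
  lim := tendsto_natCast_atTop_atTop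
  step := fun A _ => ⟨1, one_pos, Eventually.of_forall fun y n _ _ => by push_cast; linarith⟩

lemma slow_one : Slow (fun _ => (1 : ℝ)) := fun A δ _ hδ => Eventually.of_forall fun y x _ => by
  simpa using hδ.le

end Pool.Agent.Q120.TY
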