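import Pool.Agent.Q120.TY.Tfae
import Pool.Agent.Q120.TY.Pow

set_option autoImplicit false

/-! # Boundedness for typical multipliers; the scale of the square of the logarithm -/

namespace Pool.Agent.Q120.TY

open MeasureTheory Filter Topology Set
open scoped ENNReal

/-- the distances stay bounded -/
def Bdd (w : ℕ → ℝ) (r : ℝ → ℝ) (α : ℝ) : Prop := ∃ C : ℝ, ∀ᶠ n in atTop, r (α * w n) ≤ C

lemma bdd_of_top {w : ℕ → ℝ} {f : ℝ → ℝ} (h : Scale w f) (hS : Slow f) {s : ℕ → ℝ}
    (hlim : Tendsto s atTop atTop) {r : ℝ → ℝ} (hr : ∀ k x, s k ≤ x → x < s (k + 1) → r x = (s (k + 1) - x) / f x)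
    (hD : D s f ≠ ⊤) : ∃ C : ℝ, ∀ᶠ x in atTop, r x ≤ C := by
  refine ⟨(D s f).toReal + 1, ?_⟩
  have h1 : D s f < ENNReal.ofReal ((D s f).toReal + 1) := by
    rw [← ENNReal.ofReal_toReal hD]
    rw [ENNReal.toReal_ofReal ENNReal.toReal_nonneg]
    exact (ENNReal.ofReal_lt_ofReal_iff (by positivity)).2 (by linarith)
  filter_upwards [upper h hS hlim hr (by positivity) h1] with x hx
  exact hx.2.le

lemma top_of_typical {w : ℕ → ℝ} {s : ℕ → ℝ} {f r : ℝ → ℝ} {α : ℝ} (hT : Typical w s f r α)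
    (hB : Bdd w r α) : D s f ≠ ⊤ := by
  intro hD
  obtain ⟨C, hC⟩ := hB
  obtain ⟨b, hb⟩ := exists_rat_gt (max C 0 + 1)
  have hb0 : (0 : ℝ) < b := lt_of_le_of_lt (by positivity) hb
  have hb1 : (0 : ℚ) < b := by exact_mod_cast hb0
  have h1 := hT b 1 hb1 one_pos (by rw [hD]; exact ENNReal.ofReal_lt_top)
  obtain ⟨n, h2, h3⟩ := (h1.and_eventually hC).exists
  rw [abs_lt] at h2
  push_cast at h2
  linarith [h2.1, le_max_left C 0]

/-- **Typical multipliers decide whether the normalised gaps are bounded.** -/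
theorem tfae_bdd {w : ℕ → ℝ} {f : ℝ → ℝ} (h : Scale w f) (hS : Slow f) {s : ℕ → ℝ}
    (hlim : Tendsto s atTop atTop) {r : ℝ → ℝ} (hr : ∀ k x, s k ≤ x → x < s (k + 1) → r x = (s (k + 1) - x) / f x) :
    [D s f ≠ ⊤,
      ∀ α : ℝ, 0 < α → Bdd w r α,
      ∀ᵐ α : ℝ, 0 < α → Bdd w r α,
      volume {α : ℝ | 0 < α ∧ Bdd w r α} ≠ 0,
      ¬ IsMeagre {α : ℝ | 0 < α ∧ Bdd w r α}].TFAE := by
  tfae_have 1 → 2 := by
    intro hD α hα
    obtain ⟨C, hC⟩ := bdd_of_top h hS hlim hr hD
    exact ⟨C, (h.lim.const_mul_atTop hα).eventually hC⟩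
  tfae_have 2 → 3 := fun h2 => Eventually.of_forall h2
  tfae_have 3 → 4 := by
    intro h3 h4
    rw [measure_eq_zero_iff_ae_notMem] at h4
    have h5 : ∀ᵐ α : ℝ, α ∉ Ioi (0 : ℝ) := by
      filter_upwards [h3, h4] with α h6 h7 h8
      exact h7 ⟨h8, h6 h8⟩
    rw [← measure_eq_zero_iff_ae_notMem, Real.volume_Ioi] at h5
    exact ENNReal.top_ne_zero h5
  tfae_have 4 → 1 := by
    intro h4 hD
    apply h4
    rw [measure_eq_zero_iff_ae_notMem]
    filter_upwards [typical_ae h hS hlim hr] with α h6 h7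
    exact top_of_typical (h6 h7.1) h7.2 hD
  tfae_have 2 → 5 := by
    intro h2 h5
    have e : {α : ℝ | 0 < α ∧ Bdd w r α} = Ioi 0 := by
      ext α
      exact ⟨fun h => h.1, fun h => ⟨h, h2 α h⟩⟩
    rw [e] at h5
    exact not_isMeagre_of_isOpen isOpen_Ioi ⟨1, by simp⟩ h5
  tfae_have 5 → 1 := by
    intro h5 hD
    refine h5 (IsMeagre.mono ?_ (typical_meagre h hS hlim hr))
    rintro α ⟨h6, h7⟩
    exact ⟨h6, fun hT => top_of_typical hT h7 hD⟩
  tfae_finish

/-! ### The scale -/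

/-- the square of the logarithm -/
noncomputable def l2 (x : ℝ) : ℝ := Real.log x ^ 2

lemma l2_small : Tendsto (fun y => l2 y / y) atTop (𝓝 0) := by
  have h := (Real.isLittleO_pow_log_id_atTop (n := 2)).tendsto_div_nhds_zero
  exact h

lemma l2_pos : ∀ᶠ y in atTop, 0 < l2 y := by
  filter_upwards [eventually_gt_atTop 1] with y hy
  have := Real.log_pos hy
  unfold l2
  positivity

lemma log_ev (c : ℝ) : ∀ᶠ y in atTop, c < Real.log y := Real.tendsto_log_atTop.eventually_gt_atTop c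

lemma slow_l2 : Slow l2 := by
  intro A δ hA hδ
  have h1 : ∀ᶠ y in atTop, l2 y / y < 1 / (2 * A) := l2_small.eventually_lt_const (by positivity)
  filter_upwards [h1, eventually_gt_atTop 2, log_ev (3 / δ + 1), l2_pos] with y h2 h3 h4 h5 x hx
  have hy0 : 0 < y := by linarith
  rw [div_lt_iff₀ hy0] at h2
  have h6 : A * l2 y < y / 2 := by
    calc A * l2 y < A * (1 / (2 * A) * y) := mul_lt_mul_of_pos_left h2 hA
      _ = y / 2 := by field_simp
  rw [abs_le] at hx
  have hx1 : y / 2 < x := by linarith [hx.1]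
  have hx2 : x < 2 * y := by linarith [hx.2]
  have hx0 : 0 < x := by linarith
  have hlog2 : Real.log 2 ≤ 1 := by
    have := Real.log_two_lt_d9
    linarith
  have h7 : Real.log x ≤ Real.log y + 1 := by
    calc Real.log x ≤ Real.log (2 * y) := Real.log_le_log hx0 hx2.le
      _ = Real.log 2 + Real.log y := Real.log_mul (by norm_num) hy0.ne'
      _ ≤ _ := by linarith
  have h8 : Real.log y - 1 ≤ Real.log x := by
    calc Real.log y - 1 ≤ Real.log y - Real.log 2 := by linarith
      _ = Real.log (y / 2) := (Real.log_div hy0.ne' (by norm_num)).symm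
      _ ≤ Real.log x := Real.log_le_log (by positivity) hx1.le
  have h9 : 0 < 3 / δ := by positivity
  have h10 : 1 < Real.log y := by linarith
  have h11 : 2 * Real.log y + 1 ≤ δ * l2 y := by
    have e : 3 / δ * δ = 3 := by field_simp
    have : 3 ≤ δ * Real.log y := by nlinarith
    unfold l2
    nlinarith
  have e : l2 x - l2 y = (Real.log x - Real.log y) * (Real.log x + Real.log y) := by unfold l2; ring
  rw [e, abs_mul]
  have h12 : |Real.log x - Real.log y| ≤ 1 := by rw [abs_le]; constructor <;> linarith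
  have h13 : |Real.log x + Real.log y| ≤ 2 * Real.log y + 1 := by rw [abs_le]; constructor <;> linarith
  calc |Real.log x - Real.log y| * |Real.log x + Real.log y| ≤ 1 * (2 * Real.log y + 1) :=
        mul_le_mul h12 h13 (abs_nonneg _) zero_le_one
    _ ≤ δ * l2 y := by linarith

lemma scale_l2 {w : ℕ → ℝ} (hw : Tendsto w atTop atTop) {C : ℝ}
    (hC : ∀ᶠ n in atTop, w (n + 1) - w n ≤ C * Real.log (w (n + 1)) ^ 2) : Scale w l2 where
  pos := l2_pos
  small := l2_small
  lim := hw
  step := by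
    intro A hA
    set C₁ : ℝ := max C 1 with hC₁
    have hC1 : 1 ≤ C₁ := le_max_right _ _
    have hC2 : C ≤ C₁ := le_max_left _ _
    obtain ⟨N, hN⟩ := eventually_atTop.1 hC
    obtain ⟨B, hB⟩ : BddAbove ((fun n => w (n + 1)) '' (Iio N)) := ((finite_Iio N).image _).bddAbove
    have h1 : ∀ᶠ z in atTop, l2 z / z < 1 / (2 * C₁) := l2_small.eventually_lt_const (by positivity)
    obtain ⟨Z, hZ⟩ := eventually_atTop.1 h1
    refine ⟨4 * C₁, by positivity, ?_⟩
    filter_upwards [eventually_gt_atTop (A * B), eventually_ge_atTop (A * Z), eventually_ge_atTop (A * 2),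
      eventually_ge_atTop (2 * A), eventually_gt_atTop 1] with y h2 h3 h4 h5 h6 n hn1 hn2
    have hA0 : 0 < A := by linarith
    rw [div_le_iff₀ hA0] at hn1
    have hv1 : 2 ≤ w (n + 1) := by
      by_contra hcon
      rw [not_le] at hcon
      nlinarith
    have hvZ : Z ≤ w (n + 1) := by
      by_contra hcon
      rw [not_le] at hcon
      nlinarith
    have hnN : N ≤ n := by
      by_contra hcon
      rw [not_le] at hcon
      have : w (n + 1) ≤ B := hB ⟨n, hcon, rfl⟩
      nlinarith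
    have h7 := hN n hnN
    have h8 := hZ _ hvZ
    rw [div_lt_iff₀ (by linarith)] at h8
    have hl0 : 0 ≤ l2 (w (n + 1)) := by unfold l2; positivity
    have h9 : C * Real.log (w (n + 1)) ^ 2 ≤ C₁ * l2 (w (n + 1)) := mul_le_mul_of_nonneg_right hC2 hl0
    have h10 : C₁ * l2 (w (n + 1)) < w (n + 1) / 2 := by
      calc C₁ * l2 (w (n + 1)) < C₁ * (1 / (2 * C₁) * w (n + 1)) := mul_lt_mul_of_pos_left h8 (by linarith)
        _ = w (n + 1) / 2 := by field_simp
    have h11 : w (n + 1) ≤ 2 * (A * y) := by linarith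
    have h12 : Real.log (w (n + 1)) ≤ 2 * Real.log y := by
      calc Real.log (w (n + 1)) ≤ Real.log (y * y) := Real.log_le_log (by linarith) (by nlinarith)
        _ = 2 * Real.log y := by rw [Real.log_mul (by linarith) (by linarith)]; ring
    have h13 : 0 ≤ Real.log (w (n + 1)) := Real.log_nonneg (by linarith)
    have h14 : l2 (w (n + 1)) ≤ 4 * l2 y := by
      unfold l2
      nlinarith
    calc w (n + 1) - w n ≤ C₁ * l2 (w (n + 1)) := h7.trans h9
      _ ≤ C₁ * (4 * l2 y) := mul_le_mul_of_nonneg_left h14 (by linarith)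
      _ = 4 * C₁ * l2 y := by ring

/-- the primes -/
noncomputable def s1 (k : ℕ) : ℝ := (pr k : ℝ)

/-- the normalised distance to the next prime -/
noncomputable def r1 (x : ℝ) : ℝ := ((nextPrime x : ℝ) - x) / l2 x

lemma s1_strictMono : StrictMono s1 := fun a b hab => by
  have := pr_strictMono hab
  unfold s1
  exact_mod_cast this

lemma s1_tendsto : Tendsto s1 atTop atTop := tendsto_natCast_atTop_atTop.comp pr_strictMono.tendsto_atTop

lemma r1_eq (k : ℕ) (x : ℝ) (h1 : s1 k ≤ x) (h2 : x < s1 (k + 1)) : r1 x = (s1 (k + 1) - x) / l2 x := by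
  unfold r1
  rw [nextPrime_eq h1 h2]
  rfl

lemma r1_nonneg (x : ℝ) : 0 ≤ r1 x := by
  have := (nextPrime_spec x).2
  unfold r1 l2
  exact div_nonneg (by linarith) (by positivity)

end Pool.Agent.Q120.TY
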