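import Mathlib

set_option autoImplicit false

/-!
# Multiples of typical numbers meet every sequence of intervals of the right scale

`w` is a sequence of positive reals tending to infinity whose steps near `y` are at most a constant times `f y`,
`f y / y → 0`. Let `y k → ∞`. Then for almost every `α > 0`, and for all `α > 0` outside a meagre set, some multiple `α w n` lies
in `(y k, y k + ε f (y k))` for infinitely many `k`.
-/

namespace Pool.Agent.Q120.TY

open MeasureTheory Filter Topology Set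
open scoped ENNReal

/-- the hypotheses on the sequence `w` and the scale `f` -/
structure Scale (w : ℕ → ℝ) (f : ℝ → ℝ) : Prop where
  pos : ∀ᶠ y in atTop, 0 < f y
  small : Tendsto (fun y => f y / y) atTop (𝓝 0)
  lim : Tendsto w atTop atTop
  step : ∀ A : ℝ, 1 < A → ∃ C : ℝ, 0 < C ∧ ∀ᶠ y in atTop, ∀ n : ℕ, y / A ≤ w (n + 1) → w n ≤ A * y →
    w (n + 1) - w n ≤ C * f y

/-- the multipliers `α` for which some `α w n` lies in `(y, y + ε f y)` -/
def Hit (w : ℕ → ℝ) (f : ℝ → ℝ) (ε y : ℝ) : Set ℝ := {α | ∃ n : ℕ, y < α * w n ∧ α * w n < y + ε * f y}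

/-- the last `w n ≤ z` before the sequence passes `z` -/
lemma last {w : ℕ → ℝ} (hw : Tendsto w atTop atTop) {z : ℝ} (hz : w 0 ≤ z) : ∃ n : ℕ, w n ≤ z ∧ z < w (n + 1) := by
  classical
  have h1 : ∃ n : ℕ, z < w n := (hw.eventually_gt_atTop z).exists
  have h2 := Nat.find_spec h1
  obtain ⟨m, hm⟩ : ∃ m, Nat.find h1 = m + 1 := by
    refine Nat.exists_eq_succ_of_ne_zero fun h3 => ?_
    rw [h3] at h2
    exact absurd h2 (not_lt.2 hz)
  refine ⟨m, not_lt.1 (Nat.find_min h1 (by omega)), ?_⟩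
  rw [← hm]
  exact h2

/-- near every `α > 0` there is a relatively large interval of good multipliers -/
lemma near {w : ℕ → ℝ} {f : ℝ → ℝ} (h : Scale w f) {ε α : ℝ} (hε : 0 < ε) (hα : 0 < α) :
    ∃ C κ : ℝ, 0 < C ∧ 0 < κ ∧ ∀ᶠ y in atTop, ∃ u v : ℝ, α - C * (f y / y) ≤ u ∧ v ≤ α + C * (f y / y) ∧
      κ * (C * (f y / y)) ≤ v - u ∧ 0 < u ∧ Ioo u v ⊆ Hit w f ε y := by
  set A : ℝ := α + 1 / α + 1 with hA
  have hA1 : 1 < A := by
    have : 0 < 1 / α := by positivity
    rw [hA]; linarith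
  obtain ⟨C₂, hC₂, hst⟩ := h.step A hA1
  set C : ℝ := 2 * α ^ 2 * C₂ + 2 * ε * α with hC
  have hCpos : 0 < C := by positivity
  refine ⟨C, ε * α / C, hCpos, by positivity, ?_⟩
  have hsm : ∀ᶠ y in atTop, f y / y < 1 / (2 * α * C₂) := h.small.eventually_lt_const (by positivity)
  filter_upwards [hst, h.pos, hsm, eventually_gt_atTop 0, eventually_ge_atTop (α * w 0)] with y h1 h2 h3 h4 h5
  have hz : w 0 ≤ y / α := by rw [le_div_iff₀ hα]; linarith
  obtain ⟨n, hn1, hn2⟩ := last h.lim hz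
  have hfy : C₂ * f y < y / (2 * α) := by
    rw [div_lt_iff₀ h4] at h3
    calc C₂ * f y < C₂ * (1 / (2 * α * C₂) * y) := mul_lt_mul_of_pos_left h3 hC₂
      _ = y / (2 * α) := by field_simp
  have hA2 : y / α ≤ A * y := by
    have h6 : 1 / α ≤ A := by rw [hA]; linarith
    calc y / α = 1 / α * y := by ring
      _ ≤ A * y := mul_le_mul_of_nonneg_right h6 h4.le
  have hA3 : y / A ≤ y / α := by
    apply div_le_div_of_nonneg_left h4.le hα
    have : 0 < 1 / α := by positivity
    rw [hA]; linarith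
  have hs := h1 n (hA3.trans hn2.le) (hn1.trans hA2)
  set W : ℝ := w n with hW
  have hlow : y / (2 * α) < W := by
    have e : y / α = y / (2 * α) + y / (2 * α) := by field_simp; ring
    linarith
  have hWpos : 0 < W := lt_trans (by positivity) hlow
  have hαW : α * W ≤ y := by
    have := mul_le_mul_of_nonneg_left hn1 hα.le
    rwa [mul_div_cancel₀ _ hα.ne'] at this
  have hyW : y < 2 * α * W := by
    rw [div_lt_iff₀ (by positivity)] at hlow
    linarith
  have hgap : y - α * W ≤ α * (C₂ * f y) := by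
    have h7 : y < α * w (n + 1) := by
      have := mul_lt_mul_of_pos_left hn2 hα
      rwa [mul_div_cancel₀ _ hα.ne'] at this
    have h8 := mul_le_mul_of_nonneg_left hs hα.le
    nlinarith
  have hfp : 0 ≤ f y / y := by positivity
  refine ⟨y / W, (y + ε * f y) / W, ?_, ?_, ?_, by positivity, ?_⟩
  · have : α ≤ y / W := by rw [le_div_iff₀ hWpos]; exact hαW
    have : 0 ≤ C * (f y / y) := by positivity
    linarith
  · rw [div_le_iff₀ hWpos]
    have e1 : C * (f y / y) * W = (2 * α * W) * (α * C₂ * (f y / y)) + (2 * α * W) * (ε * (f y / y)) := by rw [hC]; ring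
    have e2 : y * (α * C₂ * (f y / y)) ≤ (2 * α * W) * (α * C₂ * (f y / y)) :=
      mul_le_mul_of_nonneg_right hyW.le (by positivity)
    have e3 : y * (ε * (f y / y)) ≤ (2 * α * W) * (ε * (f y / y)) := mul_le_mul_of_nonneg_right hyW.le (by positivity)
    have e4 : y * (α * C₂ * (f y / y)) = α * (C₂ * f y) := by field_simp
    have e5 : y * (ε * (f y / y)) = ε * f y := by field_simp
    have e6 : (α + C * (f y / y)) * W = α * W + C * (f y / y) * W := by ring
    rw [e6, e1]
    linarith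
  · have e1 : (y + ε * f y) / W - y / W = ε * f y / W := by ring
    have e2 : ε * α / C * (C * (f y / y)) = ε * f y * (α / y) := by field_simp
    have e3 : α / y ≤ 1 / W := by
      rw [div_le_div_iff₀ h4 hWpos]
      linarith
    rw [e1, e2]
    calc ε * f y * (α / y) ≤ ε * f y * (1 / W) := mul_le_mul_of_nonneg_left e3 (by positivity)
      _ = ε * f y / W := by ring
  · rintro β ⟨hb1, hb2⟩
    rw [div_lt_iff₀ hWpos] at hb1
    rw [lt_div_iff₀ hWpos] at hb2
    exact ⟨n, hb1, hb2⟩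

lemma hit_open {w : ℕ → ℝ} {f : ℝ → ℝ} {ε y : ℝ} : IsOpen (Hit w f ε y) := by
  have : Hit w f ε y = ⋃ n : ℕ, {α | y < α * w n ∧ α * w n < y + ε * f y} := by
    ext α; simp [Hit]
  rw [this]
  refine isOpen_iUnion fun n => ?_
  exact (isOpen_lt continuous_const (continuous_id.mul continuous_const)).inter
    (isOpen_lt (continuous_id.mul continuous_const) continuous_const)

/-- the positive multipliers without a hit from `m` on -/
def Miss (w : ℕ → ℝ) (f : ℝ → ℝ) (ε : ℝ) (y : ℕ → ℝ) (m : ℕ) : Set ℝ := {α | 0 < α ∧ ∀ k, m ≤ k → α ∉ Hit w f ε (y k)}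

lemma miss_meas {w : ℕ → ℝ} {f : ℝ → ℝ} {ε : ℝ} {y : ℕ → ℝ} {m : ℕ} : MeasurableSet (Miss w f ε y m) := by
  have : Miss w f ε y m = Ioi 0 ∩ ⋂ k : ℕ, ⋂ _ : m ≤ k, (Hit w f ε (y k))ᶜ := by
    ext α; simp [Miss]
  rw [this]
  exact measurableSet_Ioi.inter (MeasurableSet.iInter fun k => MeasurableSet.iInter fun _ => hit_open.measurableSet.compl)

lemma miss_null {w : ℕ → ℝ} {f : ℝ → ℝ} (h : Scale w f) {ε : ℝ} (hε : 0 < ε) {y : ℕ → ℝ} (hy : Tendsto y atTop atTop)
    (m : ℕ) : volume (Miss w f ε y m) = 0 := by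
  have h1 := Besicovitch.ae_tendsto_measure_inter_div_of_measurableSet (μ := (volume : Measure ℝ))
    (miss_meas (w := w) (f := f) (ε := ε) (y := y) (m := m))
  rw [← compl_mem_ae_iff]
  filter_upwards [h1] with α hα hin
  have hα0 : 0 < α := hin.1
  rw [indicator_of_mem hin] at hα
  obtain ⟨C, κ, hC, hκ, hn⟩ := near h hε hα0
  -- the radii
  set R : ℕ → ℝ := fun k => C * (f (y k) / y k) with hR
  have hR0 : Tendsto R atTop (𝓝 0) := by
    have := (h.small.comp hy).const_mul C
    simpa [hR] using this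
  have hev : ∀ᶠ k in atTop, 0 < R k := by
    filter_upwards [hy.eventually h.pos, hy.eventually_gt_atTop 0] with k h2 h3
    rw [hR]; positivity
  have hR1 : Tendsto R atTop (𝓝[>] 0) := tendsto_nhdsWithin_iff.2 ⟨hR0, hev⟩
  have h2 := hα.comp hR1
  -- the quotient is at most 1 - κ/2
  have hκ2 : ENNReal.ofReal (1 - κ / 2) < 1 := by
    rw [← ENNReal.ofReal_one]
    exact (ENNReal.ofReal_lt_ofReal_iff one_pos).2 (by linarith)
  have h3 := h2.eventually_const_lt hκ2
  obtain ⟨k, h4, h5, h6, h7⟩ := (h3.and (hev.and ((hy.eventually hn).and (eventually_ge_atTop m)))).exists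
  obtain ⟨u, v, hu, hv, huv, hu0, hsub⟩ := h6
  simp only [Function.comp] at h4
  have hRk : 0 < R k := h5
  have e1 : Miss w f ε y m ∩ Metric.closedBall α (R k) ⊆ Metric.closedBall α (R k) \ Ioo u v := by
    rintro β ⟨hb1, hb2⟩
    exact ⟨hb2, fun hb3 => hb1.2 k h7 (hsub hb3)⟩
  have e2 : Ioo u v ⊆ Metric.closedBall α (R k) := by
    rintro β ⟨hb1, hb2⟩
    rw [Real.closedBall_eq_Icc]
    exact ⟨by linarith, by linarith⟩
  have e3 : volume (Metric.closedBall α (R k) \ Ioo u v) = ENNReal.ofReal (2 * R k) - ENNReal.ofReal (v - u) := by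
    rw [measure_sdiff e2 measurableSet_Ioo.nullMeasurableSet (by simp), Real.volume_closedBall, Real.volume_Ioo]
  have e4 : volume (Miss w f ε y m ∩ Metric.closedBall α (R k)) ≤ ENNReal.ofReal (2 * R k * (1 - κ / 2)) := by
    refine (measure_mono e1).trans ?_
    rw [e3, ← ENNReal.ofReal_sub _ (le_trans (by positivity) huv)]
    apply ENNReal.ofReal_le_ofReal
    have : κ * R k ≤ v - u := huv
    linarith
  have e5 : volume (Miss w f ε y m ∩ Metric.closedBall α (R k)) / volume (Metric.closedBall α (R k)) ≤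
      ENNReal.ofReal (1 - κ / 2) := by
    rw [Real.volume_closedBall]
    rw [ENNReal.div_le_iff (by simpa using hRk) ENNReal.ofReal_ne_top]
    refine e4.trans ?_
    rw [ENNReal.ofReal_mul (by positivity), mul_comm]
  exact absurd h4 (not_lt.2 e5)

/-- **Almost every multiplier is hit infinitely often.** -/
theorem core_ae {w : ℕ → ℝ} {f : ℝ → ℝ} (h : Scale w f) {ε : ℝ} (hε : 0 < ε) {y : ℕ → ℝ} (hy : Tendsto y atTop atTop) :
    ∀ᵐ α : ℝ, 0 < α → ∃ᶠ k in atTop, α ∈ Hit w f ε (y k) := by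
  have h1 : ∀ᵐ α : ℝ, ∀ m : ℕ, α ∉ Miss w f ε y m := by
    rw [ae_all_iff]
    intro m
    exact measure_eq_zero_iff_ae_notMem.1 (miss_null h hε hy m)
  filter_upwards [h1] with α hα hα0
  rw [frequently_atTop]
  intro m
  have h2 := hα m
  simp only [Miss, mem_ofPred_eq, not_and, not_forall, not_not] at h2
  obtain ⟨k, hk, h3⟩ := h2 hα0
  exact ⟨k, hk, h3⟩

/-- **So is every multiplier outside a meagre set.** -/
theorem core_meagre {w : ℕ → ℝ} {f : ℝ → ℝ} (h : Scale w f) {ε : ℝ} (hε : 0 < ε) {y : ℕ → ℝ}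
    (hy : Tendsto y atTop atTop) : IsMeagre {α : ℝ | 0 < α ∧ ¬ ∃ᶠ k in atTop, α ∈ Hit w f ε (y k)} := by
  have h0 : {α : ℝ | 0 < α ∧ ¬ ∃ᶠ k in atTop, α ∈ Hit w f ε (y k)} ⊆ ⋃ m : ℕ, Miss w f ε y m := by
    rintro α ⟨h1, h2⟩
    rw [not_frequently, eventually_atTop] at h2
    obtain ⟨m, hm⟩ := h2
    exact mem_iUnion.2 ⟨m, h1, hm⟩
  refine IsMeagre.mono h0 (isMeagre_iUnion fun m => ?_)
  refine IsNowhereDense.isMeagre ?_
  rw [IsNowhereDense]
  by_contra hne
  obtain ⟨β, hβ⟩ := nonempty_iff_ne_empty.2 hne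
  rw [mem_interior_iff_mem_nhds, Metric.mem_nhds_iff] at hβ
  obtain ⟨δ, hδ, hball⟩ := hβ
  have hβ0 : 0 ≤ β := by
    have h1 : β ∈ closure (Miss w f ε y m) := hball (Metric.mem_ball_self hδ)
    have h2 : closure (Miss w f ε y m) ⊆ Ici 0 := closure_minimal (fun x hx => hx.1.le) isClosed_Ici
    exact h2 h1
  set α : ℝ := β + δ / 2 with hα
  have hα0 : 0 < α := by linarith
  obtain ⟨C, κ, hC, hκ, hn⟩ := near h hε hα0
  have hR0 : Tendsto (fun k => C * (f (y k) / y k)) atTop (𝓝 0) := by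
    have := (h.small.comp hy).const_mul C
    simpa using this
  obtain ⟨k, h4, h5, h6, h7, h8, h9⟩ := ((hR0.eventually_lt_const (show 0 < δ / 2 by linarith)).and
    ((hy.eventually h.pos).and ((hy.eventually hn).and ((eventually_ge_atTop m).and
      ((hy.eventually_gt_atTop 0).and (eventually_ge_atTop 0)))))).exists
  obtain ⟨u, v, hu, hv, huv, hu0, hsub⟩ := h6
  have hRk : 0 < C * (f (y k) / y k) := by positivity
  have huv' : u < v := by
    have : 0 < κ * (C * (f (y k) / y k)) := by positivity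
    linarith
  have h10 : Ioo u v ⊆ closure (Miss w f ε y m) := by
    refine fun x hx => hball ?_
    rw [Real.ball_eq_Ioo]
    exact ⟨by linarith [hx.1], by linarith [hx.2]⟩
  have h11 : Disjoint (Ioo u v) (Miss w f ε y m) := by
    rw [Set.disjoint_left]
    intro x hx hx2
    exact hx2.2 k h7 (hsub hx)
  have h12 : Disjoint (Ioo u v) (closure (Miss w f ε y m)) := h11.closure_right isOpen_Ioo
  obtain ⟨x, hx⟩ := exists_between huv'
  exact Set.disjoint_left.1 h12 hx (h10 hx)

end Pool.Agent.Q120.TY
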