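import Pool.Agent.Q120.TY.Bdd

set_option autoImplicit false

/-! # General scales -/

namespace Pool.Agent.Q120.TY

open MeasureTheory Filter Topology Set Asymptotics
open scoped ENNReal

/-- a scale: positive for large arguments, `o(x)`, of the same order at comparable arguments, and asymptotically constant on
intervals of its own length -/
structure Gauge (f : ℝ → ℝ) : Prop where
  pos : ∀ᶠ y in atTop, 0 < f y
  small : Tendsto (fun y => f y / y) atTop (𝓝 0)
  dbl : ∀ A : ℝ, 1 < A → ∃ C : ℝ, ∀ᶠ y in atTop, ∀ x : ℝ, y / A ≤ x → x ≤ A * y → f x ≤ C * f y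
  slow : ∀ A δ : ℝ, 0 < A → 0 < δ → ∀ᶠ y in atTop, ∀ x : ℝ, |x - y| ≤ A * f y → |f x - f y| ≤ δ * f y

lemma gauge_l2 : Gauge l2 where
  pos := l2_pos
  small := l2_small
  slow := slow_l2
  dbl := by
    intro A hA
    refine ⟨4, ?_⟩
    filter_upwards [eventually_ge_atTop A] with y hy x hx1 hx2
    have hA0 : 0 < A := by linarith
    have hy0 : 0 < y := by linarith
    have hx3 : 1 ≤ x := by
      refine le_trans ?_ hx1
      rw [le_div_iff₀ hA0]; linarith
    have h12 : Real.log x ≤ 2 * Real.log y := by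
      calc Real.log x ≤ Real.log (y * y) := Real.log_le_log (by linarith) (by nlinarith)
        _ = 2 * Real.log y := by rw [Real.log_mul hy0.ne' hy0.ne']; ring
    have h13 : 0 ≤ Real.log x := Real.log_nonneg hx3
    unfold l2
    nlinarith

lemma scale_gen {f : ℝ → ℝ} (hf : Gauge f) {w : ℕ → ℝ} (hw : Tendsto w atTop atTop) {C : ℝ}
    (hC : ∀ᶠ n in atTop, w (n + 1) - w n ≤ C * f (w (n + 1))) : Scale w f where
  pos := hf.pos
  small := hf.small
  lim := hw
  step := by
    intro A hA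
    set C₁ : ℝ := max C 1 with hC₁
    have hC1 : 1 ≤ C₁ := le_max_right _ _
    have hC2 : C ≤ C₁ := le_max_left _ _
    obtain ⟨N, hN⟩ := eventually_atTop.1 hC
    obtain ⟨B, hB⟩ : BddAbove ((fun n => w (n + 1)) '' (Iio N)) := ((finite_Iio N).image _).bddAbove
    have h1 : ∀ᶠ z in atTop, f z / z < 1 / (2 * C₁) ∧ 0 < f z :=
      (hf.small.eventually_lt_const (by positivity)).and hf.pos
    obtain ⟨Z, hZ⟩ := eventually_atTop.1 h1
    obtain ⟨C₂, h2A⟩ := hf.dbl (2 * A) (by linarith)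
    refine ⟨C₁ * max C₂ 1, by positivity, ?_⟩
    filter_upwards [eventually_gt_atTop (A * B), eventually_ge_atTop (A * Z), eventually_ge_atTop (A * 2), h2A, hf.pos] with
      y h2 h3 h4 h5 h6 n hn1 hn2
    have hA0 : 0 < A := by linarith
    have hn1' := hn1
    rw [div_le_iff₀ hA0] at hn1
    have hv1 : 2 ≤ w (n + 1) := by
      by_contra hcon
      rw [not_le] at hcon
      nlinarith
    have hy0 : 0 < y := by nlinarith
    have hvZ : Z ≤ w (n + 1) := by
      by_contra hcon
      rw [not_le] at hcon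
      nlinarith
    have hnN : N ≤ n := by
      by_contra hcon
      rw [not_le] at hcon
      have : w (n + 1) ≤ B := hB ⟨n, hcon, rfl⟩
      nlinarith
    have h7 := hN n hnN
    obtain ⟨h8, hl0⟩ := hZ _ hvZ
    rw [div_lt_iff₀ (by linarith)] at h8
    have h9 : C * f (w (n + 1)) ≤ C₁ * f (w (n + 1)) := mul_le_mul_of_nonneg_right hC2 hl0.le
    have h10 : C₁ * f (w (n + 1)) < w (n + 1) / 2 := by
      calc C₁ * f (w (n + 1)) < C₁ * (1 / (2 * C₁) * w (n + 1)) := mul_lt_mul_of_pos_left h8 (by linarith)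
        _ = w (n + 1) / 2 := by field_simp
    have h11 : w (n + 1) ≤ 2 * A * y := by linarith
    have h12 : y / (2 * A) ≤ w (n + 1) := by
      refine le_trans ?_ hn1'
      exact div_le_div_of_nonneg_left hy0.le hA0 (by linarith)
    have h14 := h5 _ h12 h11
    calc w (n + 1) - w n ≤ C₁ * f (w (n + 1)) := h7.trans h9
      _ ≤ C₁ * (C₂ * f y) := mul_le_mul_of_nonneg_left h14 (by linarith)
      _ ≤ C₁ * (max C₂ 1 * f y) :=
        mul_le_mul_of_nonneg_left (mul_le_mul_of_nonneg_right (le_max_left _ _) h6.le) (by linarith)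
      _ = C₁ * max C₂ 1 * f y := by ring

/-- the gap sequence is `O(f)` exactly if `D` is finite -/
lemma bigO_iff {f : ℝ → ℝ} {s : ℕ → ℝ} (hpos : ∀ᶠ k in atTop, 0 < f (s k)) (hs : StrictMono s) :
    (fun k => s (k + 1) - s k) =O[atTop] (fun k => f (s k)) ↔ D s f ≠ ⊤ := by
  have hnn : ∀ k, 0 < s (k + 1) - s k := fun k => by linarith [hs (Nat.lt_succ_self k)]
  constructor
  · intro h
    obtain ⟨C, hC⟩ := h.bound
    have h1 : ∀ᶠ k in atTop, ENNReal.ofReal ((s (k + 1) - s k) / f (s k)) ≤ ENNReal.ofReal C := by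
      filter_upwards [hC, hpos] with k h2 h3
      apply ENNReal.ofReal_le_ofReal
      rw [div_le_iff₀ h3]
      rwa [Real.norm_of_nonneg (hnn k).le, Real.norm_of_nonneg h3.le] at h2
    exact ne_top_of_le_ne_top ENNReal.ofReal_ne_top (Filter.limsup_le_of_le (by isBoundedDefault) h1)
  · intro hD
    have h1 : D s f < ENNReal.ofReal ((D s f).toReal + 1) := by
      conv_lhs => rw [← ENNReal.ofReal_toReal hD]
      exact (ENNReal.ofReal_lt_ofReal_iff (by positivity)).2 (by linarith)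
    have h2 : ∀ᶠ k in atTop, ENNReal.ofReal ((s (k + 1) - s k) / f (s k)) < ENNReal.ofReal ((D s f).toReal + 1) :=
      Filter.eventually_lt_of_limsup_lt h1 (by isBoundedDefault)
    refine IsBigO.of_bound ((D s f).toReal + 1) ?_
    filter_upwards [h2, hpos] with k h3 h4
    have h5 := (ENNReal.ofReal_lt_ofReal_iff (by positivity)).1 h3
    rw [div_lt_iff₀ h4] at h5
    rw [Real.norm_of_nonneg (hnn k).le, Real.norm_of_nonneg h4.le]
    exact h5.le

/-- the gap sequence is `o(f)` exactly if `D` is zero -/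
lemma littleO_iff {f : ℝ → ℝ} {s : ℕ → ℝ} (hpos : ∀ᶠ k in atTop, 0 < f (s k)) (hs : StrictMono s) :
    (fun k => s (k + 1) - s k) =o[atTop] (fun k => f (s k)) ↔ D s f = 0 := by
  have hnn : ∀ k, 0 < s (k + 1) - s k := fun k => by linarith [hs (Nat.lt_succ_self k)]
  rw [D_zero_iff (hpos.mono fun k hk => (div_pos (hnn k) hk).le)]
  rw [isLittleO_iff_tendsto' (hpos.mono fun k hk h0 => absurd h0 hk.ne')]

/-- the distance from `x` to the next prime at the scale `f` -/
noncomputable def rf (f : ℝ → ℝ) (x : ℝ) : ℝ := ((nextPrime x : ℝ) - x) / f x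

lemma rf_eq (f : ℝ → ℝ) (k : ℕ) (x : ℝ) (h1 : s1 k ≤ x) (h2 : x < s1 (k + 1)) : rf f x = (s1 (k + 1) - x) / f x := by
  unfold rf
  rw [nextPrime_eq h1 h2]
  rfl

lemma rf_nonneg {f : ℝ → ℝ} (hf : Gauge f) : ∀ᶠ x in atTop, 0 ≤ rf f x := by
  filter_upwards [hf.pos] with x hx
  have := (nextPrime_spec x).2
  unfold rf
  exact div_nonneg (by linarith) hx.le

end Pool.Agent.Q120.TY
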