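import Pool.Agent.Q120.TY.Core

set_option autoImplicit false

/-! # The limit set of the distances to the next element -/

namespace Pool.Agent.Q120.TY

open MeasureTheory Filter Topology Set
open scoped ENNReal

/-- `f` is almost constant at its own scale -/
def Slow (f : ℝ → ℝ) : Prop := ∀ A δ : ℝ, 0 < A → 0 < δ → ∀ᶠ y in atTop, ∀ x : ℝ, |x - y| ≤ A * f y → |f x - f y| ≤ δ * f y

/-- the largest normalised gap, asymptotically -/
noncomputable def D (s : ℕ → ℝ) (f : ℝ → ℝ) : ℝ≥0∞ := limsup (fun k => ENNReal.ofReal ((s (k + 1) - s k) / f (s k))) atTop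

lemma freq_of_hit {w : ℕ → ℝ} {f : ℝ → ℝ} {ε α : ℝ} {y : ℕ → ℝ} (hy : Tendsto y atTop atTop) {P : ℝ → Prop}
    (h1 : ∃ᶠ k in atTop, α ∈ Hit w f ε (y k)) (h2 : ∀ᶠ k in atTop, ∀ x, y k < x → x < y k + ε * f (y k) → P x) :
    ∃ᶠ n in atTop, P (α * w n) := by
  rw [frequently_atTop]
  intro N
  obtain ⟨B, hB⟩ : BddAbove ((fun n => α * w n) '' (Iio N)) := ((finite_Iio N).image _).bddAbove
  obtain ⟨k, h3, h4, h5⟩ := (h1.and_eventually (h2.and (hy.eventually_gt_atTop B))).exists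
  obtain ⟨n, h6, h7⟩ := h3
  refine ⟨n, ?_, h4 _ h6 h7⟩
  by_contra h8
  have h9 : α * w n ≤ B := hB ⟨n, by simpa using h8, rfl⟩
  linarith

/-- the intervals in which the normalised distance is close to `b` -/
lemma intervals {w : ℕ → ℝ} {f : ℝ → ℝ} (h : Scale w f) (hS : Slow f) {s : ℕ → ℝ}
    (hlim : Tendsto s atTop atTop) {r : ℝ → ℝ} (hr : ∀ k x, s k ≤ x → x < s (k + 1) → r x = (s (k + 1) - x) / f x)
    {b δ : ℝ} (hb : 0 < b) (hδ : 0 < δ) (hD : ENNReal.ofReal b < D s f) :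
    ∃ (y : ℕ → ℝ) (ε : ℝ), 0 < ε ∧ Tendsto y atTop atTop ∧
      ∀ᶠ k in atTop, ∀ x, y k < x → x < y k + ε * f (y k) → |r x - b| < δ := by
  -- a larger b'
  obtain ⟨c, hc1, hc2⟩ := exists_between hD
  have hc3 : c ≠ ⊤ := ne_top_of_lt hc2
  set b' : ℝ := c.toReal with hb'
  have hcb : ENNReal.ofReal b' = c := ENNReal.ofReal_toReal hc3
  have hbb : b < b' := by
    rw [← hcb] at hc1
    exact (ENNReal.ofReal_lt_ofReal_iff_of_nonneg hb.le).1 hc1
  have hb'0 : 0 < b' := hb.trans hbb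
  have hf1 : ∃ᶠ k in atTop, c < ENNReal.ofReal ((s (k + 1) - s k) / f (s k)) := by
    exact Filter.frequently_lt_of_lt_limsup (by isBoundedDefault) hc2
  have hf2 : ∃ᶠ k in atTop, b' < (s (k + 1) - s k) / f (s k) := by
    refine hf1.mono fun k hk => ?_
    rw [← hcb] at hk
    exact (ENNReal.ofReal_lt_ofReal_iff_of_nonneg hb'0.le).1 hk
  obtain ⟨φ, hφ, hφ2⟩ := extraction_of_frequently_atTop hf2
  set δ₁ : ℝ := min (1 / 2) (min (δ / (4 * (b + δ))) ((b' - b) / b')) with hδ₁
  have hδ₁0 : 0 < δ₁ := by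
    refine lt_min (by norm_num) (lt_min (by positivity) (div_pos (by linarith) hb'0))
  have hd1 : δ₁ ≤ 1 / 2 := min_le_left _ _
  have hd2 : δ₁ * (4 * (b + δ)) ≤ δ := by
    have := (min_le_right (1 / 2) (min (δ / (4 * (b + δ))) ((b' - b) / b'))).trans (min_le_left _ _)
    rwa [← hδ₁, le_div_iff₀ (by positivity)] at this
  have hd3 : b ≤ b' * (1 - δ₁) := by
    have := (min_le_right (1 / 2) (min (δ / (4 * (b + δ))) ((b' - b) / b'))).trans (min_le_right _ _)
    rw [← hδ₁, le_div_iff₀ hb'0] at this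
    linarith
  set ε : ℝ := min b δ / 4 with hε
  have hε0 : 0 < ε := by
    have : 0 < min b δ := lt_min hb hδ
    positivity
  have he1 : ε ≤ b / 4 := by rw [hε]; linarith [min_le_left b δ]
  have he2 : ε ≤ δ / 4 := by rw [hε]; linarith [min_le_right b δ]
  have ht : Tendsto (fun j => s (φ j + 1)) atTop atTop :=
    hlim.comp (tendsto_atTop_mono (fun j => (hφ.id_le j).trans (Nat.le_succ _)) tendsto_id)
  have ht0 : Tendsto (fun j => s (φ j)) atTop atTop := hlim.comp hφ.tendsto_atTop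
  refine ⟨fun j => s (φ j + 1) - b * f (s (φ j + 1)), ε, hε0, ?_, ?_⟩
  · -- tends to infinity
    have h1 : ∀ᶠ z in atTop, f z / z < 1 / (2 * b) := h.small.eventually_lt_const (by positivity)
    have h2 : ∀ᶠ j in atTop, s (φ j + 1) / 2 ≤ s (φ j + 1) - b * f (s (φ j + 1)) := by
      filter_upwards [ht.eventually h1, ht.eventually_gt_atTop 0] with j h3 h4
      rw [div_lt_iff₀ h4] at h3
      have : b * f (s (φ j + 1)) < b * (1 / (2 * b) * s (φ j + 1)) := mul_lt_mul_of_pos_left h3 hb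
      have e : b * (1 / (2 * b) * s (φ j + 1)) = s (φ j + 1) / 2 := by field_simp
      linarith
    exact tendsto_atTop_mono' _ h2 (ht.atTop_div_const (by norm_num))
  · filter_upwards [ht.eventually (hS b δ₁ hb hδ₁0), ht.eventually h.pos, ht0.eventually h.pos] with j h1 h2 h2'
    intro x hx1 hx2
    set s' : ℝ := s (φ j + 1) with hs'
    have hF : 0 < f s' := h2
    have hy := h1 (s' - b * f s') (by rw [show s' - b * f s' - s' = -(b * f s') by ring, abs_neg, abs_of_pos (by positivity)])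
    rw [abs_le] at hy
    have hx3 : x < s' - b * f s' + ε * ((1 + δ₁) * f s') := by
      have : ε * f (s' - b * f s') ≤ ε * ((1 + δ₁) * f s') := mul_le_mul_of_nonneg_left (by linarith [hy.2]) hε0.le
      linarith
    have he3 : ε * (1 + δ₁) ≤ b / 2 := by nlinarith
    have he3' : ε * ((1 + δ₁) * f s') ≤ b / 2 * f s' := by
      rw [← mul_assoc]; exact mul_le_mul_of_nonneg_right he3 hF.le
    have hbF : 0 < b * f s' := by positivity
    have hxs : x < s' := by linarith
    have hfx := h1 x (by rw [abs_le]; constructor <;> linarith)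
    rw [abs_le] at hfx
    have hfx0 : 0 < f x := by nlinarith [hfx.1]
    have hsx : s (φ j) ≤ x := by
      by_contra hcon
      rw [not_le] at hcon
      have h3 := h1 (s (φ j)) (by
        rw [abs_le]
        constructor
        · linarith
        · have h6 := hφ2 j
          rw [lt_div_iff₀ h2'] at h6
          have : 0 < b' * f (s (φ j)) := by positivity
          linarith)
      rw [abs_le] at h3
      have h4 := hφ2 j
      rw [lt_div_iff₀ h2'] at h4
      have h5 : b' * ((1 - δ₁) * f s') ≤ b' * f (s (φ j)) := mul_le_mul_of_nonneg_left (by linarith [h3.1]) hb'0.le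
      have h6 : b * f s' ≤ b' * ((1 - δ₁) * f s') := by
        rw [← mul_assoc]; exact mul_le_mul_of_nonneg_right hd3 hF.le
      linarith
    rw [hr (φ j) x hsx hxs, abs_lt]
    constructor
    · -- lower bound
      have h3 : (b - δ) * f x < s' - x := by
        rcases le_or_gt (b - δ) 0 with h4 | h4
        · have : (b - δ) * f x ≤ 0 := mul_nonpos_of_nonpos_of_nonneg h4 hfx0.le
          linarith
        · have h5 : (b - δ) * f x ≤ (b - δ) * ((1 + δ₁) * f s') := mul_le_mul_of_nonneg_left (by linarith [hfx.2]) h4.le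
          have h6 : (b - δ) * ((1 + δ₁) * f s') + ε * ((1 + δ₁) * f s') < b * f s' := by
            have h7 : (b - δ) * (1 + δ₁) + ε * (1 + δ₁) < b := by nlinarith
            have h8 := mul_lt_mul_of_pos_right h7 hF
            calc _ = ((b - δ) * (1 + δ₁) + ε * (1 + δ₁)) * f s' := by ring
              _ < _ := h8
          linarith
      have h9 : b - δ < (s' - x) / f x := by rw [lt_div_iff₀ hfx0]; exact h3
      linarith
    · have h3 : s' - x < (b + δ) * f x := by
        have h5 : (b + δ) * ((1 - δ₁) * f s') ≤ (b + δ) * f x := mul_le_mul_of_nonneg_left (by linarith [hfx.1]) (by linarith)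
        have h6 : b * f s' ≤ (b + δ) * ((1 - δ₁) * f s') := by
          rw [← mul_assoc]
          refine mul_le_mul_of_nonneg_right ?_ hF.le
          nlinarith
        linarith
      have h9 : (s' - x) / f x < b + δ := by rw [div_lt_iff₀ hfx0]; exact h3
      linarith

/-- every `b > 0` below `D` is approximated infinitely often -/
def Typical (w : ℕ → ℝ) (s : ℕ → ℝ) (f r : ℝ → ℝ) (α : ℝ) : Prop :=
  ∀ b δ : ℚ, 0 < b → 0 < δ → ENNReal.ofReal b < D s f → ∃ᶠ n in atTop, |r (α * w n) - b| < δ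

lemma typical_ae {w : ℕ → ℝ} {f : ℝ → ℝ} (h : Scale w f) (hS : Slow f) {s : ℕ → ℝ}
    (hlim : Tendsto s atTop atTop) {r : ℝ → ℝ} (hr : ∀ k x, s k ≤ x → x < s (k + 1) → r x = (s (k + 1) - x) / f x) :
    ∀ᵐ α : ℝ, 0 < α → Typical w s f r α := by
  have h1 : ∀ᵐ α : ℝ, ∀ b δ : ℚ, 0 < b → 0 < δ → ENNReal.ofReal b < D s f → 0 < α →
      ∃ᶠ n in atTop, |r (α * w n) - b| < δ := by
    rw [ae_all_iff]
    intro b
    rw [ae_all_iff]
    intro δ
    by_cases hb : 0 < b ∧ 0 < δ ∧ ENNReal.ofReal b < D s f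
    · obtain ⟨y, ε, hε, hy, h2⟩ := intervals h hS hlim hr (b := b) (δ := δ) (by exact_mod_cast hb.1)
        (by exact_mod_cast hb.2.1) hb.2.2
      filter_upwards [core_ae h hε hy] with α hα _ _ _ hα0
      exact freq_of_hit hy (hα hα0) h2
    · exact Eventually.of_forall fun α h1 h2 h3 => absurd ⟨h1, h2, h3⟩ hb
  filter_upwards [h1] with α hα hα0 b δ hb hδ hD
  exact hα b δ hb hδ hD hα0

lemma typical_meagre {w : ℕ → ℝ} {f : ℝ → ℝ} (h : Scale w f) (hS : Slow f) {s : ℕ → ℝ}
    (hlim : Tendsto s atTop atTop) {r : ℝ → ℝ} (hr : ∀ k x, s k ≤ x → x < s (k + 1) → r x = (s (k + 1) - x) / f x) :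
    IsMeagre {α : ℝ | 0 < α ∧ ¬ Typical w s f r α} := by
  have h0 : {α : ℝ | 0 < α ∧ ¬ Typical w s f r α} ⊆ ⋃ b : ℚ, ⋃ δ : ℚ,
      {α : ℝ | 0 < α ∧ 0 < b ∧ 0 < δ ∧ ENNReal.ofReal b < D s f ∧ ¬ ∃ᶠ n in atTop, |r (α * w n) - b| < δ} := by
    rintro α ⟨h1, h2⟩
    unfold Typical at h2
    push Not at h2
    obtain ⟨b, δ, h3, h4, h5, h6⟩ := h2
    refine mem_iUnion.2 ⟨b, mem_iUnion.2 ⟨δ, h1, h3, h4, h5, ?_⟩⟩
    rw [not_frequently]
    simpa using h6
  refine IsMeagre.mono h0 (isMeagre_iUnion fun b => isMeagre_iUnion fun δ => ?_)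
  by_cases hb : 0 < b ∧ 0 < δ ∧ ENNReal.ofReal b < D s f
  · obtain ⟨y, ε, hε, hy, h2⟩ := intervals h hS hlim hr (b := b) (δ := δ) (by exact_mod_cast hb.1)
      (by exact_mod_cast hb.2.1) hb.2.2
    refine IsMeagre.mono ?_ (core_meagre h hε hy)
    rintro α ⟨hα0, _, _, _, hn⟩
    exact ⟨hα0, fun h3 => hn (freq_of_hit hy h3 h2)⟩
  · refine IsMeagre.mono ?_ (IsMeagre.empty)
    rintro α ⟨_, h1, h2, h3, _⟩
    exact (hb ⟨h1, h2, h3⟩).elim

/-- an upper bound for the normalised distance -/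
lemma upper {w : ℕ → ℝ} {f : ℝ → ℝ} (h : Scale w f) (hS : Slow f) {s : ℕ → ℝ}
    (hlim : Tendsto s atTop atTop) {r : ℝ → ℝ} (hr : ∀ k x, s k ≤ x → x < s (k + 1) → r x = (s (k + 1) - x) / f x)
    {c : ℝ} (hc : 0 < c) (hD : D s f < ENNReal.ofReal c) : ∀ᶠ x in atTop, 0 < r x ∧ r x < c := by
  obtain ⟨c1, h1, h2⟩ := exists_between hD
  have hc3 : c1 ≠ ⊤ := ne_top_of_lt h2
  set b : ℝ := c1.toReal with hb
  have hcb : ENNReal.ofReal b = c1 := ENNReal.ofReal_toReal hc3
  have hbc : b < c := by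
    rw [← hcb] at h2
    exact (ENNReal.ofReal_lt_ofReal_iff hc).1 h2
  have hb0 : 0 < b := by
    rw [hb]
    exact ENNReal.toReal_pos (ne_bot_of_gt h1) hc3
  have h3 : ∀ᶠ k in atTop, ENNReal.ofReal ((s (k + 1) - s k) / f (s k)) < c1 :=
    Filter.eventually_lt_of_limsup_lt h1 (by isBoundedDefault)
  set δ : ℝ := (c - b) / (2 * c) with hδ
  have hδ0 : 0 < δ := div_pos (by linarith) (by positivity)
  have hbd : b < c * (1 - δ) := by
    have e : c * (1 - δ) = (c + b) / 2 := by rw [hδ]; field_simp; ring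
    rw [e]; linarith
  have hδ1 : δ < 1 := by rw [hδ, div_lt_one (by positivity)]; linarith
  have h4 : ∀ᶠ k in atTop, ∀ x, s k ≤ x → x < s (k + 1) → 0 < r x ∧ r x < c := by
    filter_upwards [h3, hlim.eventually (hS b δ hb0 hδ0), hlim.eventually h.pos] with k h5 h6 h7 x hx1 hx2
    have h8 : (s (k + 1) - s k) / f (s k) < b := by
      rw [← hcb] at h5
      exact (ENNReal.ofReal_lt_ofReal_iff hb0).1 h5
    rw [div_lt_iff₀ h7] at h8
    have h9 := h6 x (by rw [abs_le]; constructor <;> nlinarith)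
    rw [abs_le] at h9
    have hfx : 0 < f x := by nlinarith [h9.1]
    rw [hr k x hx1 hx2]
    refine ⟨div_pos (by linarith) hfx, ?_⟩
    rw [div_lt_iff₀ hfx]
    have h10 : c * ((1 - δ) * f (s k)) ≤ c * f x := mul_le_mul_of_nonneg_left (by linarith [h9.1]) hc.le
    have h11 : b * f (s k) < c * ((1 - δ) * f (s k)) := by
      rw [← mul_assoc]; exact mul_lt_mul_of_pos_right hbd h7
    linarith
  rw [eventually_atTop] at h4
  obtain ⟨K, hK⟩ := h4
  filter_upwards [eventually_ge_atTop (s K)] with x hx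
  -- the place of x
  obtain ⟨n, hn1, hn2⟩ := last (w := fun n => s (K + n)) (hlim.comp (tendsto_atTop_mono (fun n => Nat.le_add_left n K) tendsto_id))
    (z := x) (by simpa using hx)
  exact hK (K + n) (Nat.le_add_right _ _) x hn1 hn2

/-- **The limit set.** -/
theorem limit_set {w : ℕ → ℝ} {f : ℝ → ℝ} (h : Scale w f) (hS : Slow f) {s : ℕ → ℝ}
    (hlim : Tendsto s atTop atTop) {r : ℝ → ℝ} (hr : ∀ k x, s k ≤ x → x < s (k + 1) → r x = (s (k + 1) - x) / f x)
    (hr0 : ∀ᶠ x in atTop, 0 ≤ r x) {α : ℝ} (hα : 0 < α) :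
    (∀ c : ℝ, MapClusterPt c atTop (fun n => r (α * w n)) → 0 ≤ c ∧ ENNReal.ofReal c ≤ D s f) ∧
    (Typical w s f r α → ∀ c : ℝ, 0 ≤ c → ENNReal.ofReal c ≤ D s f → MapClusterPt c atTop (fun n => r (α * w n))) := by
  have hαw : Tendsto (fun n => α * w n) atTop atTop := h.lim.const_mul_atTop hα
  constructor
  · intro c hc
    have h1 : 0 ≤ c := by
      by_contra hcon
      rw [not_le] at hcon
      have h2 : ∃ᶠ n in atTop, r (α * w n) ∈ Iio 0 := hc.frequently (Iio_mem_nhds hcon)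
      obtain ⟨n, h3, h4⟩ := (h2.and_eventually (hαw.eventually hr0)).exists
      exact absurd h3 (not_lt.2 h4)
    refine ⟨h1, ?_⟩
    by_contra hcon
    rw [not_le] at hcon
    obtain ⟨c1, h2, h3⟩ := exists_between hcon
    have hc3 : c1 ≠ ⊤ := ne_top_of_lt h3
    have hc0 : 0 < c1.toReal := ENNReal.toReal_pos (ne_bot_of_gt h2) hc3
    have h4 := upper h hS hlim hr hc0 (by rwa [ENNReal.ofReal_toReal hc3])
    have h5 : c1.toReal < c := by
      rw [← ENNReal.ofReal_toReal hc3] at h3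
      exact (ENNReal.ofReal_lt_ofReal_iff_of_nonneg hc0.le).1 h3
    have h6 : ∃ᶠ n in atTop, r (α * w n) ∈ Ioi c1.toReal := hc.frequently (Ioi_mem_nhds h5)
    obtain ⟨n, h7, h8⟩ := (h6.and_eventually (hαw.eventually h4)).exists
    exact absurd h7 (not_lt.2 h8.2.le)
  · intro hT c hc0 hcD
    rw [mapClusterPt_iff_frequently]
    intro U hU
    rw [Metric.mem_nhds_iff] at hU
    obtain ⟨δ, hδ, hU⟩ := hU
    rcases eq_or_ne (D s f) 0 with hD | hD
    · -- the distances tend to zero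
      have hc : c = 0 := by
        rw [hD] at hcD
        exact le_antisymm (ENNReal.ofReal_eq_zero.1 (le_antisymm hcD bot_le)) hc0
      have h4 := upper h hS hlim hr hδ (by rw [hD]; simpa using hδ)
      refine (hαw.eventually h4).frequently.mono fun n hn => hU ?_
      rw [hc, Metric.mem_ball, Real.dist_eq, sub_zero, abs_of_pos hn.1]
      exact hn.2
    · -- a rational b near c
      have h5 : ∃ b : ℚ, 0 < b ∧ ENNReal.ofReal b < D s f ∧ |(b : ℝ) - c| < δ / 2 := by
        rcases hc0.eq_or_lt with h6 | h6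
        · obtain ⟨c1, h7, h8⟩ := exists_between (bot_lt_iff_ne_bot.2 hD)
          have hc3 : c1 ≠ ⊤ := ne_top_of_lt h8
          have hc1 : 0 < c1.toReal := ENNReal.toReal_pos (ne_bot_of_gt h7) hc3
          obtain ⟨b, hb1, hb2⟩ := exists_rat_btwn (show (0 : ℝ) < min c1.toReal (δ / 2) from lt_min hc1 (by linarith))
          refine ⟨b, by exact_mod_cast hb1, ?_, ?_⟩
          · refine lt_of_le_of_lt ?_ h8
            rw [← ENNReal.ofReal_toReal hc3]
            exact ENNReal.ofReal_le_ofReal (hb2.le.trans (min_le_left _ _))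
          · rw [← h6, sub_zero, abs_of_pos hb1]
            exact lt_of_lt_of_le hb2 (min_le_right _ _)
        · obtain ⟨b, hb1, hb2⟩ := exists_rat_btwn (show max 0 (c - δ / 2) < c from max_lt h6 (by linarith))
          have hb0 : (0 : ℝ) < b := (le_max_left _ _).trans_lt hb1
          refine ⟨b, by exact_mod_cast hb0, ?_, ?_⟩
          · exact lt_of_lt_of_le ((ENNReal.ofReal_lt_ofReal_iff h6).2 hb2) hcD
          · rw [abs_lt]
            have := (le_max_right 0 (c - δ / 2)).trans_lt hb1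
            constructor <;> linarith
      obtain ⟨b, hb0, hbD, hbc⟩ := h5
      obtain ⟨δ', hδ1, hδ2⟩ := exists_rat_btwn (show (0 : ℝ) < δ / 2 by linarith)
      refine (hT b δ' hb0 (by exact_mod_cast hδ1) hbD).mono fun n hn => hU ?_
      rw [Metric.mem_ball, Real.dist_eq]
      have : |r (α * w n) - c| ≤ |r (α * w n) - b| + |(b : ℝ) - c| := by
        calc _ = |(r (α * w n) - b) + ((b : ℝ) - c)| := by congr 1; ring
          _ ≤ _ := abs_add_le _ _
      linarith

end Pool.Agent.Q120.TY
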