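import Pool.Agent.Q120.TY.Lim

set_option autoImplicit false

/-! # Convergence to zero for typical multipliers -/

namespace Pool.Agent.Q120.TY

open MeasureTheory Filter Topology Set
open scoped ENNReal

/-- `D = 0` exactly if the normalised gaps tend to zero -/
lemma D_zero_iff {f : ℝ → ℝ} {s : ℕ → ℝ} (hnn : ∀ᶠ k in atTop, 0 ≤ (s (k + 1) - s k) / f (s k)) :
    D s f = 0 ↔ Tendsto (fun k => (s (k + 1) - s k) / f (s k)) atTop (𝓝 0) := by
  constructor
  · intro h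
    have h1 : Tendsto (fun k => ENNReal.ofReal ((s (k + 1) - s k) / f (s k))) atTop (𝓝 0) := by
      refine tendsto_of_le_liminf_of_limsup_le bot_le (le_of_eq h) ?_ ?_
      · isBoundedDefault
      · isBoundedDefault
    have h2 := (ENNReal.tendsto_toReal ENNReal.zero_ne_top).comp h1
    rw [ENNReal.toReal_zero] at h2
    refine h2.congr' ?_
    filter_upwards [hnn] with k hk
    exact ENNReal.toReal_ofReal hk
  · intro h
    have h1 := (ENNReal.continuous_ofReal.tendsto 0).comp h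
    rw [ENNReal.ofReal_zero] at h1
    exact h1.limsup_eq

lemma zero_all {w : ℕ → ℝ} {f : ℝ → ℝ} (h : Scale w f) (hS : Slow f) {s : ℕ → ℝ}
    (hlim : Tendsto s atTop atTop) {r : ℝ → ℝ} (hr : ∀ k x, s k ≤ x → x < s (k + 1) → r x = (s (k + 1) - x) / f x)
    (hD : D s f = 0) : Tendsto r atTop (𝓝 0) := by
  rw [Metric.tendsto_nhds]
  intro ε hε
  have h1 := upper h hS hlim hr hε (by rw [hD]; simpa using hε)
  filter_upwards [h1] with x hx
  rw [Real.dist_eq, sub_zero, abs_of_pos hx.1]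
  exact hx.2

lemma zero_of_typical {w : ℕ → ℝ} {s : ℕ → ℝ} {f r : ℝ → ℝ} {α : ℝ} (hT : Typical w s f r α)
    (hL : Tendsto (fun n => r (α * w n)) atTop (𝓝 0)) : D s f = 0 := by
  by_contra hD
  obtain ⟨c1, h7, h8⟩ := exists_between (bot_lt_iff_ne_bot.2 hD)
  have hc3 : c1 ≠ ⊤ := ne_top_of_lt h8
  have hc1 : 0 < c1.toReal := ENNReal.toReal_pos (ne_bot_of_gt h7) hc3
  obtain ⟨b, hb1, hb2⟩ := exists_rat_btwn hc1
  have hb3 : (0 : ℝ) < b := hb1
  have hb4 : (0 : ℚ) < b := by exact_mod_cast hb1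
  have h9 : ENNReal.ofReal b < D s f := by
    refine lt_of_le_of_lt ?_ h8
    rw [← ENNReal.ofReal_toReal hc3]
    exact ENNReal.ofReal_le_ofReal hb2.le
  have h10 := hT b (b / 2) hb4 (by positivity) h9
  have h11 := hL.eventually_lt_const (show (0 : ℝ) < b / 2 by positivity)
  obtain ⟨n, h12, h13⟩ := (h10.and_eventually h11).exists
  rw [abs_lt] at h12
  push_cast at h12
  linarith [h12.1]

/-- **Typical multipliers decide whether the normalised gaps tend to zero.** -/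
theorem tfae_zero {w : ℕ → ℝ} {f : ℝ → ℝ} (h : Scale w f) (hS : Slow f) {s : ℕ → ℝ}
    (hlim : Tendsto s atTop atTop) {r : ℝ → ℝ} (hr : ∀ k x, s k ≤ x → x < s (k + 1) → r x = (s (k + 1) - x) / f x) :
    [D s f = 0,
      ∀ α : ℝ, 0 < α → Tendsto (fun n => r (α * w n)) atTop (𝓝 0),
      ∀ᵐ α : ℝ, 0 < α → Tendsto (fun n => r (α * w n)) atTop (𝓝 0),
      volume {α : ℝ | 0 < α ∧ Tendsto (fun n => r (α * w n)) atTop (𝓝 0)} ≠ 0,
      ¬ IsMeagre {α : ℝ | 0 < α ∧ Tendsto (fun n => r (α * w n)) atTop (𝓝 0)}].TFAE := by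
  tfae_have 1 → 2 := fun hD α hα => (zero_all h hS hlim hr hD).comp (h.lim.const_mul_atTop hα)
  tfae_have 2 → 3 := fun h2 => Eventually.of_forall h2
  tfae_have 3 → 4 := by
    intro h3 h4
    rw [measure_eq_zero_iff_ae_notMem] at h4
    have h5 : ∀ᵐ α : ℝ, α ∉ Ioi (0 : ℝ) := by
      filter_upwards [h3, h4] with α h6 h7 h8
      exact h7 ⟨h8, h6 h8⟩
    rw [← measure_eq_zero_iff_ae_notMem, Real.volume_Ioi] at h5
    exact ENNReal.top_ne_zero h5
  tfae_have 4 → 1 := by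
    intro h4
    by_contra hD
    apply h4
    rw [measure_eq_zero_iff_ae_notMem]
    filter_upwards [typical_ae h hS hlim hr] with α h6 h7
    exact hD (zero_of_typical (h6 h7.1) h7.2)
  tfae_have 2 → 5 := by
    intro h2 h5
    have e : {α : ℝ | 0 < α ∧ Tendsto (fun n => r (α * w n)) atTop (𝓝 0)} = Ioi 0 := by
      ext α
      exact ⟨fun h => h.1, fun h => ⟨h, h2 α h⟩⟩
    rw [e] at h5
    exact not_isMeagre_of_isOpen isOpen_Ioi ⟨1, by simp⟩ h5
  tfae_have 5 → 1 := by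
    intro h5
    by_contra hD
    refine h5 (IsMeagre.mono ?_ (typical_meagre h hS hlim hr))
    rintro α ⟨h6, h7⟩
    exact ⟨h6, fun hT => hD (zero_of_typical hT h7)⟩
  tfae_finish

/-- the limit points -/
theorem limit_points {w : ℕ → ℝ} {f : ℝ → ℝ} (h : Scale w f) (hS : Slow f) {s : ℕ → ℝ}
    (hlim : Tendsto s atTop atTop) {r : ℝ → ℝ} (hr : ∀ k x, s k ≤ x → x < s (k + 1) → r x = (s (k + 1) - x) / f x)
    (hr0 : ∀ᶠ x in atTop, 0 ≤ r x) :
    (∀ α : ℝ, 0 < α → {c : ℝ | MapClusterPt c atTop (fun n => r (α * w n))} ⊆ {c : ℝ | 0 ≤ c ∧ ENNReal.ofReal c ≤ D s f}) ∧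
    (∀ᵐ α : ℝ, 0 < α → {c : ℝ | MapClusterPt c atTop (fun n => r (α * w n))} = {c : ℝ | 0 ≤ c ∧ ENNReal.ofReal c ≤ D s f}) ∧
    IsMeagre {α : ℝ | 0 < α ∧
      ¬ {c : ℝ | MapClusterPt c atTop (fun n => r (α * w n))} = {c : ℝ | 0 ≤ c ∧ ENNReal.ofReal c ≤ D s f}} := by
  have h1 : ∀ α : ℝ, 0 < α →
      {c : ℝ | MapClusterPt c atTop (fun n => r (α * w n))} ⊆ {c : ℝ | 0 ≤ c ∧ ENNReal.ofReal c ≤ D s f} :=
    fun α hα c hc => (limit_set h hS hlim hr hr0 hα).1 c hc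
  have h2 : ∀ α : ℝ, 0 < α → Typical w s f r α →
      {c : ℝ | MapClusterPt c atTop (fun n => r (α * w n))} = {c : ℝ | 0 ≤ c ∧ ENNReal.ofReal c ≤ D s f} :=
    fun α hα hT => (h1 α hα).antisymm fun c hc => (limit_set h hS hlim hr hr0 hα).2 hT c hc.1 hc.2
  refine ⟨h1, ?_, ?_⟩
  · filter_upwards [typical_ae h hS hlim hr] with α h3 hα
    exact h2 α hα (h3 hα)
  · refine IsMeagre.mono ?_ (typical_meagre h hS hlim hr)
    rintro α ⟨h3, h4⟩
    exact ⟨h3, fun hT => h4 (h2 α h3 hT)⟩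

end Pool.Agent.Q120.TY
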