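import Pool.Agent.Q120.TY.Lim

set_option autoImplicit false

/-! # Translates of the integers -/

namespace Pool.Agent.Q120.TY

open MeasureTheory Filter Topology Set
open scoped ENNReal

/-- the translations in `[0,1]` which bring some natural number into `(a, a + L)` -/
def Tr (a L : ℝ) : Set ℝ := {t | t ∈ Icc (0 : ℝ) 1 ∧ ∃ n : ℕ, a < t + n ∧ t + n < a + L}

lemma tr_meas {a L : ℝ} : MeasurableSet (Tr a L) := by
  have : Tr a L = Icc (0 : ℝ) 1 ∩ ⋃ n : ℕ, Ioo (a - n) (a + L - n) := by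
    ext t
    simp only [Tr, mem_ofPred_eq, mem_inter_iff, mem_iUnion, mem_Ioo]
    constructor
    · rintro ⟨h1, n, h2, h3⟩
      exact ⟨h1, n, by linarith, by linarith⟩
    · rintro ⟨h1, n, h2, h3⟩
      exact ⟨h1, n, by linarith, by linarith⟩
  rw [this]
  exact measurableSet_Icc.inter (MeasurableSet.iUnion fun n => measurableSet_Ioo)

lemma tr_volume {a L : ℝ} (ha : 0 ≤ a) (hL1 : L ≤ 1) : ENNReal.ofReal L ≤ volume (Tr a L) := by
  set m : ℕ := ⌊a⌋₊ with hm
  set x : ℝ := a - m with hx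
  have hx0 : 0 ≤ x := by
    have := Nat.floor_le ha
    rw [hx]; linarith
  have hx1 : x < 1 := by
    have := Nat.lt_floor_add_one a
    rw [hx]; linarith
  rcases le_or_gt (x + L) 1 with h1 | h1
  · have h2 : Ioo x (x + L) ⊆ Tr a L := by
      rintro t ⟨h3, h4⟩
      exact ⟨⟨by linarith, by linarith⟩, m, by linarith, by linarith⟩
    refine le_trans ?_ (measure_mono h2)
    rw [Real.volume_Ioo]
    exact ENNReal.ofReal_le_ofReal (by linarith)
  · have h2 : Ioo x 1 ∪ Ioo 0 (x + L - 1) ⊆ Tr a L := by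
      rintro t (⟨h3, h4⟩ | ⟨h3, h4⟩)
      · exact ⟨⟨by linarith, by linarith⟩, m, by linarith, by linarith⟩
      · exact ⟨⟨by linarith, by linarith⟩, m + 1, by push_cast; linarith, by push_cast; linarith⟩
    refine le_trans ?_ (measure_mono h2)
    rw [measure_union _ measurableSet_Ioo, Real.volume_Ioo, Real.volume_Ioo, ← ENNReal.ofReal_add (by linarith) (by linarith)]
    · exact ENNReal.ofReal_le_ofReal (by linarith)
    · rw [Set.disjoint_left]
      rintro t ⟨h3, h4⟩ ⟨h5, h6⟩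
      linarith

lemma freq_volume {A : ℕ → Set ℝ} (hA : ∀ k, MeasurableSet (A k)) (hsub : ∀ k, A k ⊆ Icc 0 1) {L : ℝ≥0∞}
    (h : ∃ᶠ k in atTop, L ≤ volume (A k)) : L ≤ volume {t | ∃ᶠ k in atTop, t ∈ A k} := by
  have e : {t | ∃ᶠ k in atTop, t ∈ A k} = ⋂ m : ℕ, ⋃ k : ℕ, ⋃ _ : m ≤ k, A k := by
    ext t
    simp only [mem_ofPred_eq, frequently_atTop, mem_iInter, mem_iUnion, exists_prop]
  have h1 : Antitone fun m : ℕ => ⋃ k : ℕ, ⋃ _ : m ≤ k, A k := by
    intro a b hab
    refine iUnion_mono fun k => iUnion_subset fun hk => ?_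
    exact subset_iUnion_of_subset (hab.trans hk) subset_rfl
  have h2 : Tendsto (fun m : ℕ => volume (⋃ k : ℕ, ⋃ _ : m ≤ k, A k)) atTop
      (𝓝 (volume (⋂ m : ℕ, ⋃ k : ℕ, ⋃ _ : m ≤ k, A k))) := by
    refine tendsto_measure_iInter_atTop (fun m => ?_) h1 ⟨0, ?_⟩
    · exact (MeasurableSet.iUnion fun k => MeasurableSet.iUnion fun _ => hA k).nullMeasurableSet
    · refine ne_top_of_le_ne_top ?_ (measure_mono (t := Icc (0 : ℝ) 1) (iUnion_subset fun k => iUnion_subset fun _ => hsub k))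
      rw [Real.volume_Icc]
      exact ENNReal.ofReal_ne_top
  rw [e]
  refine ge_of_tendsto h2 (Eventually.of_forall fun m => ?_)
  obtain ⟨k, h3, h4⟩ := (h.and_eventually (eventually_ge_atTop m)).exists
  exact h3.trans (measure_mono (subset_iUnion_of_subset k (subset_iUnion_of_subset h4 subset_rfl)))

/-- **Translates.** -/
theorem translates {s : ℕ → ℝ} (hlim : Tendsto s atTop atTop) {r : ℝ → ℝ}
    (hr : ∀ k x, s k ≤ x → x < s (k + 1) → r x = (s (k + 1) - x) / (fun _ => (1 : ℝ)) x) {c L : ℝ} (hc : 0 ≤ c)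
    (hL0 : 0 < L) (hL1 : L ≤ 1) (hD : ENNReal.ofReal (c + L) < D s (fun _ => 1)) :
    ENNReal.ofReal L ≤ volume {t : ℝ | t ∈ Icc (0 : ℝ) 1 ∧ ∃ᶠ n : ℕ in atTop, c < r (t + n)} := by
  have hf1 : ∃ᶠ k in atTop, ENNReal.ofReal (c + L) < ENNReal.ofReal ((s (k + 1) - s k) / (fun _ => (1 : ℝ)) (s k)) :=
    Filter.frequently_lt_of_lt_limsup (by isBoundedDefault) hD
  have hf2 : ∃ᶠ k in atTop, c + L < s (k + 1) - s k := by
    refine hf1.mono fun k hk => ?_
    have := (ENNReal.ofReal_lt_ofReal_iff_of_nonneg (by positivity)).1 hk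
    simpa using this
  classical
  set A : ℕ → Set ℝ := fun k => if c + L < s (k + 1) - s k then Tr (s k) L else ∅ with hA
  have h1 : ∃ᶠ k in atTop, ENNReal.ofReal L ≤ volume (A k) := by
    refine (hf2.and_eventually (hlim.eventually_ge_atTop 0)).mono fun k hk => ?_
    rw [hA]
    simp only [hk.1, if_true]
    exact tr_volume hk.2 hL1
  have h2 := freq_volume (A := A) (fun k => by
      rw [hA]; dsimp only; split_ifs
      · exact tr_meas
      · exact MeasurableSet.empty) (fun k => by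
      rw [hA]; dsimp only; split_ifs
      · exact fun t ht => ht.1
      · exact empty_subset _) h1
  refine h2.trans (measure_mono ?_)
  intro t ht
  have ht' : ∃ᶠ k in atTop, t ∈ A k := ht
  have ht0 : t ∈ Icc (0 : ℝ) 1 := by
    obtain ⟨k, hk⟩ := ht'.exists
    rw [hA] at hk
    dsimp only at hk
    split_ifs at hk
    · exact hk.1
    · exact absurd hk (notMem_empty _)
  refine ⟨ht0, ?_⟩
  rw [frequently_atTop]
  intro N
  obtain ⟨k, hk, hk2⟩ := (ht'.and_eventually (hlim.eventually_ge_atTop ((N : ℝ) + 1))).exists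
  rw [hA] at hk
  dsimp only at hk
  split_ifs at hk with h3
  · obtain ⟨_, n, h4, h5⟩ := hk
    refine ⟨n, ?_, ?_⟩
    · have : (N : ℝ) ≤ n := by linarith [ht0.2]
      exact_mod_cast this
    · rw [hr k (t + n) h4.le (by linarith), div_one]
      linarith
  · exact absurd hk (notMem_empty _)

/-- almost all translates decide as well -/
theorem translates_zero {s : ℕ → ℝ} (hlim : Tendsto s atTop atTop) {r : ℝ → ℝ}
    (hr : ∀ k x, s k ≤ x → x < s (k + 1) → r x = (s (k + 1) - x) / (fun _ => (1 : ℝ)) x)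
    (h : ∀ᵐ t : ℝ, Tendsto (fun n : ℕ => r (t + n)) atTop (𝓝 0)) : D s (fun _ => 1) = 0 := by
  by_contra hD
  obtain ⟨c1, h7, h8⟩ := exists_between (bot_lt_iff_ne_bot.2 hD)
  have hc3 : c1 ≠ ⊤ := ne_top_of_lt h8
  have hc1 : 0 < c1.toReal := ENNReal.toReal_pos (ne_bot_of_gt h7) hc3
  set b : ℝ := min (c1.toReal / 2) 1 with hb
  have hb0 : 0 < b := lt_min (by positivity) one_pos
  have hb1 : b + b ≤ c1.toReal := by
    have := min_le_left (c1.toReal / 2) 1
    rw [← hb] at this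
    linarith
  have h1 : ENNReal.ofReal (b + b) < D s (fun _ => 1) := by
    refine lt_of_le_of_lt ?_ h8
    rw [← ENNReal.ofReal_toReal hc3]
    exact ENNReal.ofReal_le_ofReal hb1
  have h2 := translates hlim hr hb0.le hb0 (min_le_right _ _) h1
  have h3 : volume {t : ℝ | t ∈ Icc (0 : ℝ) 1 ∧ ∃ᶠ n : ℕ in atTop, b < r (t + n)} = 0 := by
    rw [measure_eq_zero_iff_ae_notMem]
    filter_upwards [h] with t ht h4
    obtain ⟨n, h5, h6⟩ := (h4.2.and_eventually (ht.eventually_lt_const hb0)).exists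
    exact absurd h5 (not_lt.2 h6.le)
  rw [h3] at h2
  exact absurd h2 (not_le.2 (ENNReal.ofReal_pos.2 hb0))

end Pool.Agent.Q120.TY
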